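import Mathlib
import Pool.Agent.Helper397.ForceCH

set_option autoImplicit false
set_option linter.all false

namespace Pool.Agent.Results.MP_95a8e7_lc.NotATheorem

section

universe u
/-! ### Recursion along a well-order -/

theorem exists_rec {I : Type u} [LinearOrder I] [WellFoundedLT I] {X : Type*} [Inhabited X]
    (Phi : I → (I → X) → X → Prop)
    (hloc : ∀ i (D D' : I → X) x, (∀ j, j < i → D j = D' j) → Phi i D x → Phi i D' x)
    (hex : ∀ i D, ∃ x, Phi i D x) : ∃ D : I → X, ∀ i, Phi i D (D i) := by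
  classical
  let step : (i : I) → ((j : I) → j < i → X) → X := fun i D =>
    Classical.choose (hex i (fun j => if h : j < i then D j h else default))
  let D : I → X := WellFounded.fix (wellFounded_lt (α := I)) step
  refine ⟨D, fun i => ?_⟩
  have h1 : D i = step i (fun j _ => D j) := WellFounded.fix_eq _ _ _
  have h2 : Phi i (fun j => if h : j < i then D j else default) (step i (fun j _ => D j)) :=
    Classical.choose_spec (hex i (fun j => if h : j < i then D j else default))
  rw [← h1] at h2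
  refine hloc i _ _ _ ?_ h2
  intro j hj
  simp [hj]

/-! ### Trees on `ℕ ⊕ I` given by addresses -/

section Tree

variable {I : Type u}

/-- The address of a node: the list of nodes from its root up to itself. -/
def addr (D : I → List (ℕ ⊕ I) × ℕ) : ℕ ⊕ I → List (ℕ ⊕ I)
  | Sum.inl m => [Sum.inl m]
  | Sum.inr i => (D i).1 ++ [Sum.inr i]

/-- The rank of a node. -/
def rk (D : I → List (ℕ ⊕ I) × ℕ) : ℕ ⊕ I → ℕ
  | Sum.inl m => m
  | Sum.inr i => (D i).2

/-- Weak tree order. -/
def le (D : I → List (ℕ ⊕ I) × ℕ) (u v : ℕ ⊕ I) : Prop := addr D u <+: addr D v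

/-- Strict tree order. -/
def lt (D : I → List (ℕ ⊕ I) × ℕ) (u v : ℕ ⊕ I) : Prop := addr D u <+: addr D v ∧ u ≠ v

/-- Nodes that are roots or have index below `d`. -/
def Below [LT I] (d : I) : ℕ ⊕ I → Prop
  | Sum.inl _ => True
  | Sum.inr i => i < d

/-- The set `A` is an antichain. -/
def Anti (D : I → List (ℕ ⊕ I) × ℕ) (A : Set (ℕ ⊕ I)) : Prop :=
  ∀ a ∈ A, ∀ b ∈ A, ¬ lt D a b

/-- The task `(d, A)` is satisfied at the node `t` at level `n`. -/
def Sat [LT I] (D : I → List (ℕ ⊕ I) × ℕ) (d : I) (A : Set (ℕ ⊕ I)) (n : ℕ) (t : ℕ ⊕ I) : Prop :=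
  ∃ s, Below d s ∧ le D s t ∧ ∀ a ∈ A, n ≤ rk D a → ¬ lt D s a

variable [LinearOrder I]

theorem Below.mono {d e : I} (h : d ≤ e) {v : ℕ ⊕ I} (hv : Below d v) : Below e v := by
  cases v with
  | inl m => trivial
  | inr i => exact lt_of_lt_of_le hv h

theorem le_refl (D : I → List (ℕ ⊕ I) × ℕ) (u : ℕ ⊕ I) : le D u u := List.prefix_refl _

theorem le_trans {D : I → List (ℕ ⊕ I) × ℕ} {u v w : ℕ ⊕ I} (h1 : le D u v) (h2 : le D v w) :
    le D u w := List.IsPrefix.trans h1 h2

/-- The key lemma: finitely many tasks can be satisfied simultaneously above any node of large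
enough rank. -/
theorem key (D : I → List (ℕ ⊕ I) × ℕ) (i : I) (L : Finset (I × Set (ℕ ⊕ I))) :
    (∀ τ ∈ L, τ.1 ≤ i ∧ (∀ a ∈ τ.2, Below τ.1 a) ∧ Anti D τ.2) →
    ∀ N : ℕ, ∃ m : ℕ, ∀ t : ℕ ⊕ I, Below i t → (∀ τ ∈ L, Below τ.1 t) → m ≤ rk D t →
      ∃ t', Below i t' ∧ le D t t' ∧ ∃ n, N ≤ n ∧ n < rk D t' ∧ ∀ τ ∈ L, Sat D τ.1 τ.2 n t' := by
  classical
  refine Finset.induction_on_min_value (fun τ : I × Set (ℕ ⊕ I) => τ.1) (s := L) ?_ ?_
  · intro _ N
    refine ⟨N + 1, fun t ht _ hm => ⟨t, ht, le_refl D t, N, le_rfl, hm, ?_⟩⟩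
    intro τ hτ; simp at hτ
  · intro τ L' hτL' hmin IH hL N
    have hL' : ∀ τ' ∈ L', τ'.1 ≤ i ∧ (∀ a ∈ τ'.2, Below τ'.1 a) ∧ Anti D τ'.2 :=
      fun τ' h => hL τ' (Finset.mem_insert_of_mem h)
    have hτ := hL τ (Finset.mem_insert_self _ _)
    obtain ⟨m1, hm1⟩ := IH hL' N
    obtain ⟨m2, hm2⟩ := IH hL' (max m1 N)
    refine ⟨m2, fun t ht hb hm => ?_⟩
    obtain ⟨t', ht', hle, n, hn, hrk, hsat⟩ :=
      hm2 t ht (fun τ' h => hb τ' (Finset.mem_insert_of_mem h)) hm
    by_cases hS : Sat D τ.1 τ.2 n t'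
    · refine ⟨t', ht', hle, n, (le_max_right _ _).trans hn, hrk, ?_⟩
      intro τ' h'
      rcases Finset.mem_insert.mp h' with rfl | h'
      · exact hS
      · exact hsat τ' h'
    · have hbt : Below τ.1 t := hb τ (Finset.mem_insert_self _ _)
      have : ∃ a ∈ τ.2, n ≤ rk D a ∧ lt D t a := by
        by_contra hcon
        push Not at hcon
        exact hS ⟨t, hbt, hle, fun a ha hna => hcon a ha hna⟩
      obtain ⟨a, haA, hna, hta⟩ := this
      have hba : Below τ.1 a := hτ.2.1 a haA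
      obtain ⟨t'', ht'', hle'', n'', hn'', hrk'', hsat''⟩ :=
        hm1 a (hba.mono hτ.1) (fun τ' h => hba.mono (hmin τ' h))
          (((le_max_left _ _).trans hn).trans hna)
      refine ⟨t'', ht'', le_trans hta.1 hle'', n'', hn'', hrk'', ?_⟩
      intro τ' h'
      rcases Finset.mem_insert.mp h' with rfl | h'
      · exact ⟨a, hba, hle'', fun a' ha' _ => hτ.2.2 a haA a' ha'⟩
      · exact hsat'' τ' h'

end Tree

section Build

variable {I : Type u} [LinearOrder I] [WellFoundedLT I]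

theorem addr_congr {D D' : I → List (ℕ ⊕ I) × ℕ} {i : I} (h : ∀ j, j < i → D j = D' j)
    {v : ℕ ⊕ I} (hv : Below i v) : addr D v = addr D' v := by
  cases v with
  | inl m => rfl
  | inr j => simp [addr, h j hv]

theorem rk_congr {D D' : I → List (ℕ ⊕ I) × ℕ} {i : I} (h : ∀ j, j < i → D j = D' j)
    {v : ℕ ⊕ I} (hv : Below i v) : rk D v = rk D' v := by
  cases v with
  | inl m => rfl
  | inr j => simp [rk, h j hv]

theorem lt_congr {D D' : I → List (ℕ ⊕ I) × ℕ} {i : I} (h : ∀ j, j < i → D j = D' j)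
    {u v : ℕ ⊕ I} (hu : Below i u) (hv : Below i v) : lt D u v ↔ lt D' u v := by
  unfold lt; rw [addr_congr h hu, addr_congr h hv]

theorem le_congr {D D' : I → List (ℕ ⊕ I) × ℕ} {i : I} (h : ∀ j, j < i → D j = D' j)
    {u v : ℕ ⊕ I} (hu : Below i u) (hv : Below i v) : le D u v ↔ le D' u v := by
  unfold le; rw [addr_congr h hu, addr_congr h hv]

/-- The requirement on the data attached to the index `i`. -/
def Req (F : I → Finset (I × Set (ℕ ⊕ I))) (i : I) (D : I → List (ℕ ⊕ I) × ℕ)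
    (x : List (ℕ ⊕ I) × ℕ) : Prop :=
  ∃ b, Below i b ∧ x.1 = addr D b ∧ x.2 < rk D b ∧
    ∀ τ ∈ F i, τ.1 ≤ i → (∀ a ∈ τ.2, Below τ.1 a) → Anti D τ.2 → Sat D τ.1 τ.2 x.2 b

theorem exists_data (F : I → Finset (I × Set (ℕ ⊕ I))) :
    ∃ D : I → List (ℕ ⊕ I) × ℕ, ∀ i, Req F i D (D i) := by
  classical
  refine exists_rec (Req F) ?_ ?_
  · rintro i D D' x h ⟨b, hb, hx1, hx2, hx3⟩
    refine ⟨b, hb, ?_, ?_, ?_⟩
    · rw [hx1, addr_congr h hb]
    · rwa [← rk_congr h hb]
    · intro τ hτ hτi hA hanti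
      have hA' : ∀ a ∈ τ.2, Below i a := fun a ha => (hA a ha).mono hτi
      have hanti' : Anti D τ.2 := by
        intro a ha c hc hlt
        exact hanti a ha c hc ((lt_congr h (hA' a ha) (hA' c hc)).mp hlt)
      obtain ⟨s, hs, hle, hs'⟩ := hx3 τ hτ hτi hA hanti'
      have hsi : Below i s := hs.mono hτi
      refine ⟨s, hs, (le_congr h hsi hb).mp hle, ?_⟩
      intro a ha hn hlt
      exact hs' a ha (by rwa [rk_congr h (hA' a ha)]) ((lt_congr h hsi (hA' a ha)).mpr hlt)
  · intro i D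
    let L := (F i).filter (fun τ => τ.1 ≤ i ∧ (∀ a ∈ τ.2, Below τ.1 a) ∧ Anti D τ.2)
    obtain ⟨m, hm⟩ := key D i L (by
      intro τ hτ; exact (Finset.mem_filter.mp hτ).2) 0
    obtain ⟨t', ht', -, n, -, hrk, hsat⟩ := hm (Sum.inl m) trivial (fun _ _ => trivial) le_rfl
    refine ⟨(addr D t', n), t', ht', rfl, hrk, ?_⟩
    intro τ hτ h1 h2 h3
    exact hsat τ (Finset.mem_filter.mpr ⟨hτ, h1, h2, h3⟩)

end Build

/-! ### Consequences for valid data -/

section Facts

variable {I : Type u} [LinearOrder I] [WellFoundedLT I]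

/-- Every node of index `i` has a parent of smaller index and larger rank. -/
def Valid (D : I → List (ℕ ⊕ I) × ℕ) : Prop :=
  ∀ i, ∃ b, Below i b ∧ (D i).1 = addr D b ∧ (D i).2 < rk D b

theorem addr_last (D : I → List (ℕ ⊕ I) × ℕ) (v : ℕ ⊕ I) : (addr D v).getLast? = some v := by
  cases v <;> simp [addr]

theorem addr_inj {D : I → List (ℕ ⊕ I) × ℕ} {u v : ℕ ⊕ I} (h : addr D u = addr D v) : u = v := by
  have h1 := addr_last D u
  rw [h, addr_last D v] at h1
  exact (Option.some.inj h1).symm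

theorem addr_ne_nil (D : I → List (ℕ ⊕ I) × ℕ) (v : ℕ ⊕ I) : addr D v ≠ [] := by
  cases v <;> simp [addr]

theorem lt_inr {D : I → List (ℕ ⊕ I) × ℕ} {i : I} {b : ℕ ⊕ I} (hb : (D i).1 = addr D b)
    {u : ℕ ⊕ I} : lt D u (Sum.inr i) ↔ le D u b := by
  constructor
  · rintro ⟨h1, h2⟩
    have h3 : addr D (Sum.inr i) = addr D b ++ [Sum.inr i] := by simp [addr, hb]
    rw [h3, List.prefix_concat_iff] at h1
    rcases h1 with h1 | h1
    · exact absurd (addr_inj (h1.trans h3.symm)) h2
    · exact h1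
  · intro h
    have h3 : addr D (Sum.inr i) = addr D b ++ [Sum.inr i] := by simp [addr, hb]
    refine ⟨?_, ?_⟩
    · rw [h3]; exact h.trans (List.prefix_append _ _)
    · rintro rfl
      have := h.length_le
      rw [h3] at this
      simp at this

theorem not_lt_inl {D : I → List (ℕ ⊕ I) × ℕ} {m : ℕ} {u : ℕ ⊕ I} : ¬ lt D u (Sum.inl m) := by
  rintro ⟨h1, h2⟩
  have h3 : addr D (Sum.inl m) = [Sum.inl m] := rfl
  rw [h3] at h1
  rcases List.prefix_concat_iff.mp (show addr D u <+: [] ++ [Sum.inl m] from h1) with h | h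
  · exact h2 (addr_inj (by rw [h, h3]; rfl))
  · exact addr_ne_nil D u (List.prefix_nil.mp h)

theorem le_iff {D : I → List (ℕ ⊕ I) × ℕ} {u v : ℕ ⊕ I} : le D u v ↔ u = v ∨ lt D u v := by
  constructor
  · intro h
    by_cases huv : u = v
    · exact Or.inl huv
    · exact Or.inr ⟨h, huv⟩
  · rintro (rfl | h)
    · exact le_refl _ _
    · exact h.1

theorem rk_lt_of_lt {D : I → List (ℕ ⊕ I) × ℕ} (hD : Valid D) (v : ℕ ⊕ I) :
    ∀ u, lt D u v → rk D v < rk D u := by
  rcases v with m | i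
  · intro u h; exact absurd h not_lt_inl
  · induction i using WellFoundedLT.induction with
    | ind i IH =>
      intro u hu
      obtain ⟨b, hb, hb1, hb2⟩ := hD i
      rw [lt_inr hb1] at hu
      rcases le_iff.mp hu with rfl | hub
      · exact hb2
      · cases b with
        | inl m => exact absurd hub not_lt_inl
        | inr j => exact hb2.trans (IH j hb u hub)

theorem lt_irrefl' (D : I → List (ℕ ⊕ I) × ℕ) (v : ℕ ⊕ I) : ¬ lt D v v := fun h => h.2 rfl

theorem lt_trans' {D : I → List (ℕ ⊕ I) × ℕ} (hD : Valid D) {u v w : ℕ ⊕ I} (h1 : lt D u v)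
    (h2 : lt D v w) : lt D u w := by
  refine ⟨h1.1.trans h2.1, ?_⟩
  rintro rfl
  have := rk_lt_of_lt hD _ _ h1
  have := rk_lt_of_lt hD _ _ h2
  omega

theorem comparable {D : I → List (ℕ ⊕ I) × ℕ} {a b c : ℕ ⊕ I} (h1 : lt D a c) (h2 : lt D b c) :
    lt D a b ∨ a = b ∨ lt D b a := by
  by_cases hab : a = b
  · exact Or.inr (Or.inl hab)
  rcases List.prefix_or_prefix_of_prefix h1.1 h2.1 with h | h
  · exact Or.inl ⟨h, hab⟩
  · exact Or.inr (Or.inr ⟨h, fun e => hab e.symm⟩)

theorem finite_below (D : I → List (ℕ ⊕ I) × ℕ) (v : ℕ ⊕ I) : {u | lt D u v}.Finite := by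
  classical
  have h1 : {u | lt D u v} ⊆ (addr D) ⁻¹' {l | l <+: addr D v} := by
    intro u hu; exact hu.1
  have h2 : {l | l <+: addr D v}.Finite := by
    have : {l | l <+: addr D v} ⊆ ((addr D v).inits.toFinset : Set (List (ℕ ⊕ I))) := by
      intro l hl
      simp only [List.coe_toFinset, Set.mem_ofPred_eq]
      exact (List.mem_inits _ _).mpr hl
    exact (Finset.finite_toSet _).subset this
  exact (h2.preimage (fun u _ v _ h => addr_inj h)).subset h1

/-- The main property of the construction: an antichain avoids all indices at which its task has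
been taken care of. -/
theorem avoid {F : I → Finset (I × Set (ℕ ⊕ I))} {D : I → List (ℕ ⊕ I) × ℕ}
    (hD : ∀ i, Req F i D (D i)) {A : Set (ℕ ⊕ I)} (hA : Anti D A) {d : I}
    (hcl : ∀ s, Below d s → ∀ n, (∃ a ∈ A, n ≤ rk D a ∧ lt D s a) →
      ∃ a ∈ A, Below d a ∧ n ≤ rk D a ∧ lt D s a)
    {i : I} (hdi : d ≤ i) (hF : (d, {a | a ∈ A ∧ Below d a}) ∈ F i) : Sum.inr i ∉ A := by
  intro hi
  obtain ⟨b, hb, hb1, hb2, hb3⟩ := hD i
  obtain ⟨s, hs, hsb, hs'⟩ := hb3 _ hF hdi (fun a ha => ha.2)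
    (fun a ha c hc => hA a ha.1 c hc.1)
  have hlt : lt D s (Sum.inr i) := (lt_inr hb1).mpr hsb
  obtain ⟨a, haA, had, hna, hlt'⟩ := hcl s hs (rk D (Sum.inr i)) ⟨_, hi, le_rfl, hlt⟩
  exact hs' a ⟨haA, had⟩ hna hlt'

end Facts

/-! ### No infinite path in the comparability graph -/

theorem no_path {V : Type*} (R : V → V → Prop) (htrans : ∀ {a b c}, R a b → R b c → R a c)
    (hcomp : ∀ {a b c}, R a c → R b c → R a b ∨ a = b ∨ R b a)
    (rank : V → ℕ) (hrank : ∀ {a b}, R a b → rank b < rank a)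
    (hfin : ∀ v, {u | R u v}.Finite)
    (f : ℕ → V) (hf : Function.Injective f) (hadj : ∀ n, R (f n) (f (n + 1)) ∨ R (f (n + 1)) (f n)) :
    False := by
  classical
  -- a minimal element above `c` and below `v`
  have hmin : ∀ c v, R c v → ∃ c', R c c' ∧ (c' = v ∨ R c' v) ∧
      ∀ w, R c w → (w = v ∨ R w v) → ¬ R w c' := by
    intro c v hcv
    have hfin' : {u | R c u ∧ (u = v ∨ R u v)}.Finite := by
      refine ((hfin v).insert v).subset ?_
      rintro u ⟨_, hu⟩
      rcases hu with rfl | hu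
      · exact Set.mem_insert _ _
      · exact Set.mem_insert_of_mem _ hu
    obtain ⟨c', hc', hmax⟩ := Set.exists_max_image _ rank hfin' ⟨v, hcv, Or.inl rfl⟩
    refine ⟨c', hc'.1, hc'.2, ?_⟩
    intro w hw1 hw2 hwc
    have := hmax w ⟨hw1, hw2⟩
    have := hrank hwc
    omega
  have claim1 : ∀ r, ∀ c, rank c = r → {n | R c (f n)}.Infinite → False := by
    intro r
    induction r using Nat.strong_induction_on with
    | _ r IH =>
      intro c hc hinf
      -- beyond `n0` the path never visits `c` or anything below `c`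
      have hfin0 : {n | f n = c ∨ R (f n) c}.Finite := by
        have : {n | f n = c ∨ R (f n) c} ⊆ f ⁻¹' (insert c {u | R u c}) := by
          intro n hn
          rcases hn with hn | hn
          · exact Or.inl hn
          · exact Or.inr hn
        exact (((hfin c).insert c).preimage (fun a _ b _ h => hf h)).subset this
      obtain ⟨n0, hn0⟩ := hfin0.bddAbove
      obtain ⟨n1, hn1, hn01⟩ := hinf.exists_gt n0
      have habove : ∀ n, n1 ≤ n → R c (f n) := by
        intro n hn
        induction n, hn using Nat.le_induction with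
        | base => exact hn1
        | succ n hn ih =>
          rcases hadj n with h | h
          · exact htrans ih h
          · rcases hcomp ih h with h' | h' | h'
            · exact h'
            · have := hn0 (show n + 1 ∈ {n | f n = c ∨ R (f n) c} from Or.inl h'.symm)
              omega
            · have := hn0 (show n + 1 ∈ {n | f n = c ∨ R (f n) c} from Or.inr h')
              omega
      obtain ⟨c', hcc', hc'1, hc'min⟩ := hmin c (f n1) hn1
      have habove' : ∀ n, n1 ≤ n → (c' = f n ∨ R c' (f n)) := by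
        intro n hn
        induction n, hn using Nat.le_induction with
        | base => exact hc'1
        | succ n hn ih =>
          rcases hadj n with h | h
          · rcases ih with ih | ih
            · exact Or.inr (ih ▸ h)
            · exact Or.inr (htrans ih h)
          · have h1 : R c (f (n + 1)) := habove (n + 1) (by omega)
            have hno : ¬ R (f (n + 1)) c' := by
              intro h2
              refine hc'min (f (n + 1)) h1 ?_ h2
              rcases hc'1 with h3 | h3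
              · exact Or.inr (h3 ▸ h2)
              · exact Or.inr (htrans h2 h3)
            rcases ih with ih | ih
            · exact absurd (ih ▸ h) hno
            · rcases hcomp ih h with h' | h' | h'
              · exact Or.inr h'
              · exact Or.inl h'
              · exact absurd h' hno
      have hinf' : {n | R c' (f n)}.Infinite := by
        have hfin1 : {n | c' = f n}.Finite := by
          refine Set.Subsingleton.finite ?_
          intro a ha b hb
          exact hf (ha.symm.trans hb)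
        have hbig : (Set.Ici n1 : Set ℕ).Infinite := Set.Ici_infinite n1
        refine (hbig.sdiff hfin1).mono ?_
        rintro n ⟨hn, hn'⟩
        rcases habove' n hn with h | h
        · exact absurd h hn'
        · exact h
      exact IH (rank c') (by rw [← hc]; exact hrank hcc') c' rfl hinf'
  -- the root of `f 0`
  have hfin' : {u | u = f 0 ∨ R u (f 0)}.Finite := by
    refine ((hfin (f 0)).insert (f 0)).subset ?_
    intro u hu
    rcases hu with rfl | hu
    · exact Set.mem_insert _ _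
    · exact Set.mem_insert_of_mem _ hu
  obtain ⟨c, hc, hcmax⟩ := Set.exists_max_image _ rank hfin' ⟨f 0, Or.inl rfl⟩
  have hcmin : ∀ w, ¬ R w c := by
    intro w hw
    have h1 : w = f 0 ∨ R w (f 0) := by
      rcases hc with rfl | hc
      · exact Or.inr hw
      · exact Or.inr (htrans hw hc)
    have := hcmax w h1
    have := hrank hw
    omega
  have hall : ∀ n, c = f n ∨ R c (f n) := by
    intro n
    induction n with
    | zero => exact hc
    | succ n ih =>
      rcases hadj n with h | h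
      · rcases ih with ih | ih
        · exact Or.inr (ih ▸ h)
        · exact Or.inr (htrans ih h)
      · rcases ih with ih | ih
        · exact absurd (ih ▸ h) (hcmin _)
        · rcases hcomp ih h with h' | h' | h'
          · exact Or.inr h'
          · exact Or.inl h'
          · exact absurd h' (hcmin _)
  refine claim1 _ c rfl ?_
  have hfin1 : {n | c = f n}.Finite := by
    refine Set.Subsingleton.finite ?_
    intro a ha b hb
    exact hf (ha.symm.trans hb)
  refine (Set.infinite_univ.sdiff hfin1).mono ?_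
  rintro n ⟨-, hn'⟩
  rcases hall n with h | h
  · exact absurd h hn'
  · exact h

end

section

universe u
/-- Closing off: above every index there is one that is closed for the set `A`. -/
theorem exists_closed {I : Type u} [LinearOrder I] [WellFoundedLT I]
    (H1 : ∀ (d : I) (f : ℕ ⊕ I → ℕ → I), ∃ e, ∀ s, Below d s → ∀ n, f s n < e)
    (D : I → List (ℕ ⊕ I) × ℕ) (A : Set (ℕ ⊕ I)) (d0 : I) :
    ∃ d : I, ∀ s, Below d s → ∀ n, (∃ a ∈ A, n ≤ rk D a ∧ lt D s a) →
      ∃ a ∈ A, Below d a ∧ n ≤ rk D a ∧ lt D s a := by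
  classical
  -- index of a witness
  have hw : ∀ s n, ∃ w : I, (∃ a ∈ A, n ≤ rk D a ∧ lt D s a) →
      ∃ a ∈ A, (∀ e, w < e → Below e a) ∧ n ≤ rk D a ∧ lt D s a := by
    intro s n
    by_cases h : ∃ a ∈ A, n ≤ rk D a ∧ lt D s a
    · obtain ⟨a, ha, hn, hlt⟩ := h
      cases a with
      | inl m => exact absurd hlt not_lt_inl
      | inr j => exact ⟨j, fun _ => ⟨Sum.inr j, ha, fun e he => he, hn, hlt⟩⟩
    · exact ⟨d0, fun h' => absurd h' h⟩
  choose w hw using hw
  choose g hg using fun d => H1 d w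
  let s : ℕ → I := fun k => Nat.rec d0 (fun _ d => max d (g d)) k
  have hs1 : ∀ k, s (k + 1) = max (s k) (g (s k)) := fun k => rfl
  obtain ⟨e, he⟩ := H1 d0 (fun _ n => s n)
  have hne : {x | ∀ n, s n ≤ x}.Nonempty := ⟨e, fun n => (he (Sum.inl 0) trivial n).le⟩
  obtain ⟨d, hd, hmin⟩ := (wellFounded_lt (α := I)).has_min _ hne
  refine ⟨d, fun v hv n hex => ?_⟩
  have hk : ∃ k, Below (s k) v := by
    cases v with
    | inl m => exact ⟨0, trivial⟩
    | inr i =>
      by_contra hcon
      push Not at hcon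
      exact hmin i (fun n => not_lt.mp (hcon n)) hv
  obtain ⟨k, hk⟩ := hk
  obtain ⟨a, ha, hb, hn, hlt⟩ := hw v n hex
  refine ⟨a, ha, ?_, hn, hlt⟩
  have h1 : w v n < s (k + 1) := by
    rw [hs1]; exact lt_of_lt_of_le (hg (s k) v hk n) (le_max_right _ _)
  exact (hb _ h1).mono (hd (k + 1))

/-- The graph given by comparability in a well-founded tree. -/
theorem graph_core_aux {I M : Type u} [LinearOrder I] [WellFoundedLT I] [Nonempty I]
    (hseg : ∀ d : I, ∃ e : M → {s : ℕ ⊕ I // Below d s} × ℕ, Function.Surjective e)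
    (hbdd : ∀ f : M → I, ∃ e, ∀ m, f m < e)
    (tk : I → I × (M → Option (ℕ ⊕ I))) (htk : Function.Surjective tk)
    {W : Type*} (e : W → I) (he : Function.Injective e) (K : W → Finset I) :
    ∃ G : SimpleGraph W,
      (¬ ∃ f : ℕ → W, Function.Injective f ∧ ∀ n, G.Adj (f n) (f (n + 1))) ∧
      ∀ S : Set W, (∀ x ∈ S, ∀ y ∈ S, ¬ G.Adj x y) →
        ∃ j d : I, ∀ x ∈ S, j ∈ K x → e x < d := by
  classical
  have H1 : ∀ (d : I) (f : ℕ ⊕ I → ℕ → I), ∃ e, ∀ s, Below d s → ∀ n, f s n < e := by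
    intro d f
    obtain ⟨q, hq⟩ := hseg d
    obtain ⟨b, hb⟩ := hbdd (fun m => f (q m).1.1 (q m).2)
    refine ⟨b, fun s hs n => ?_⟩
    obtain ⟨m, hm⟩ := hq (⟨s, hs⟩, n)
    have := hb m
    simpa [hm] using this
  let task : I → I × Set (ℕ ⊕ I) := fun j => ((tk j).1, {a | ∃ m, (tk j).2 m = some a})
  have htask : ∀ (d : I) (A' : Set (ℕ ⊕ I)), (∀ a ∈ A', Below d a) → ∃ j, task j = (d, A') := by
    intro d A' hA'
    obtain ⟨q, hq⟩ := hseg d
    obtain ⟨j, hj⟩ := htk (d, fun m => if (q m).1.1 ∈ A' then some (q m).1.1 else none)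
    refine ⟨j, ?_⟩
    simp only [task, hj, Prod.mk.injEq, true_and]
    ext a
    simp only [Set.mem_ofPred_eq]
    constructor
    · rintro ⟨m, hm⟩
      by_cases h : (q m).1.1 ∈ A'
      · rw [if_pos h] at hm; rw [← Option.some.inj hm]; exact h
      · rw [if_neg h] at hm; exact absurd hm (by simp)
    · intro ha
      obtain ⟨m, hm⟩ := hq (⟨a, hA' a ha⟩, 0)
      refine ⟨m, ?_⟩
      have : (q m).1.1 = a := by rw [hm]
      rw [this, if_pos ha]
  let F : I → Finset (I × Set (ℕ ⊕ I)) := fun i =>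
    if h : ∃ x, e x = i then (K h.choose).image task else ∅
  have hF : ∀ x, F (e x) = (K x).image task := by
    intro x
    have h : ∃ y, e y = e x := ⟨x, rfl⟩
    have h2 : h.choose = x := he h.choose_spec
    simp only [F, dif_pos h]
    rw [h2]
  obtain ⟨D, hD⟩ := exists_data F
  have hval : Valid D := fun i => by
    obtain ⟨b, h1, h2, h3, _⟩ := hD i
    exact ⟨b, h1, h2, h3⟩
  let G : SimpleGraph W :=
    { Adj := fun x y => lt D (Sum.inr (e x)) (Sum.inr (e y)) ∨ lt D (Sum.inr (e y)) (Sum.inr (e x))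
      symm := ⟨fun x y h => h.symm⟩
      loopless := ⟨fun x h => by
        rcases h with h | h <;> exact lt_irrefl' _ _ h⟩ }
  refine ⟨G, ?_, ?_⟩
  · rintro ⟨f, hf, hadj⟩
    refine no_path (lt D) (fun h1 h2 => lt_trans' hval h1 h2) (fun h1 h2 => comparable h1 h2)
      (rk D) (fun {a b} h => rk_lt_of_lt hval b a h) (finite_below D)
      (fun n => Sum.inr (e (f n))) ?_ hadj
    intro a b hab
    exact hf (he (Sum.inr.inj hab))
  · intro S hS
    let A : Set (ℕ ⊕ I) := (fun x => Sum.inr (e x)) '' S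
    have hA : Anti D A := by
      rintro _ ⟨x, hx, rfl⟩ _ ⟨y, hy, rfl⟩ hlt
      exact hS x hx y hy (Or.inl hlt)
    obtain ⟨d, hd⟩ := exists_closed H1 D A (Classical.arbitrary I)
    obtain ⟨j, hj⟩ := htask d {a | a ∈ A ∧ Below d a} (fun a ha => ha.2)
    refine ⟨j, d, fun x hx hjx => ?_⟩
    by_contra hcon
    push Not at hcon
    refine avoid hD hA hd hcon ?_ ⟨x, hx, rfl⟩
    rw [hF, ← hj]
    exact Finset.mem_image_of_mem _ hjx

open Cardinal in
theorem exists_surj {X Y : Type u} [Nonempty Y] (hle : #Y ≤ #X) :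
    ∃ q : X → Y, Function.Surjective q := by
  obtain ⟨i⟩ := (Cardinal.le_def _ _).mp hle
  exact ⟨Function.invFun i, Function.invFun_surjective i.injective⟩

open Cardinal in
theorem seg_surj {μ : Cardinal.{u}} (hμ : ℵ₀ ≤ μ) {M : Type u} (hM : #M = μ)
    (d : (Order.succ μ).ord.ToType) :
    ∃ e : M → {s : ℕ ⊕ (Order.succ μ).ord.ToType // Below d s} × ℕ, Function.Surjective e := by
  have hne : Nonempty ({s : ℕ ⊕ (Order.succ μ).ord.ToType // Below d s} × ℕ) :=
    ⟨(⟨Sum.inl 0, trivial⟩, 0)⟩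
  refine exists_surj ?_
  have h1 : #{s : ℕ ⊕ (Order.succ μ).ord.ToType // Below d s} ≤ #(ℕ ⊕ Set.Iio d) := by
    refine Cardinal.mk_le_of_injective (f := fun s => match s with
      | ⟨Sum.inl m, _⟩ => Sum.inl m
      | ⟨Sum.inr i, hi⟩ => Sum.inr ⟨i, hi⟩) ?_
    rintro ⟨a | a, ha⟩ ⟨b | b, hb⟩ hab
    · simp at hab; subst hab; rfl
    · simp at hab
    · simp at hab
    · have h := congrArg Subtype.val (Sum.inr.inj hab)
      simp only at h
      subst h; rfl
  have h2 : #(Set.Iio d) ≤ μ := by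
    have := Cardinal.mk_Iio_lt d (by simp)
    rw [Cardinal.mk_ord_toType] at this
    exact Order.lt_succ_iff.mp this
  have h3 : #(ℕ ⊕ Set.Iio d) ≤ μ := by
    rw [Cardinal.mk_sum]
    simp only [Cardinal.mk_nat, Cardinal.lift_aleph0, Cardinal.lift_uzero]
    exact Cardinal.add_le_of_le hμ hμ h2
  rw [hM, Cardinal.mk_prod]
  simp only [Cardinal.mk_nat, Cardinal.lift_aleph0, Cardinal.lift_uzero]
  exact Cardinal.mul_le_of_le hμ (h1.trans h3) hμ

open Cardinal in
theorem bdd_succ {μ : Cardinal.{u}} (hμ : ℵ₀ ≤ μ) {M : Type u} (hM : #M = μ)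
    (f : M → (Order.succ μ).ord.ToType) : ∃ e, ∀ m, f m < e := by
  have hsμ : ℵ₀ ≤ Order.succ μ := hμ.trans (Order.le_succ μ)
  have hreg : (Order.succ μ).IsRegular := Cardinal.isRegular_succ hμ
  let g : M → Ordinal.{u} := fun m => ((Ordinal.ToType.mk.symm (f m) : Set.Iio (Order.succ μ).ord) : Ordinal.{u})
  have hg : ∀ m, g m < (Order.succ μ).ord := fun m =>
    (Ordinal.ToType.mk.symm (f m) : Set.Iio (Order.succ μ).ord).2
  have hlim := Cardinal.isSuccLimit_ord hsμ
  have hsup : (⨆ m, Order.succ (g m)) < (Order.succ μ).ord := by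
    refine Ordinal.iSup_lt_of_lt_cof ?_ (fun m => hlim.succ_lt (hg m))
    rw [hM, hreg.cof_ord]; exact Order.lt_succ μ
  refine ⟨Ordinal.ToType.mk ⟨_, hsup⟩, fun m => ?_⟩
  rw [← OrderIso.symm_apply_apply (Ordinal.ToType.mk (o := (Order.succ μ).ord)).symm (f m)]
  simp only [OrderIso.symm_symm]
  rw [OrderIso.lt_iff_lt, ← Subtype.coe_lt_coe]
  exact lt_of_lt_of_le (Order.lt_succ (g m)) (Ordinal.le_iSup (fun m => Order.succ (g m)) m)

open Cardinal in
theorem enum_tasks {μ : Cardinal.{u}} (hμ : ℵ₀ ≤ μ) (h : (2 : Cardinal.{u}) ^ μ = Order.succ μ)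
    {M : Type u} (hM : #M = μ) :
    ∃ tk : (Order.succ μ).ord.ToType →
      (Order.succ μ).ord.ToType × (M → Option (ℕ ⊕ (Order.succ μ).ord.ToType)),
      Function.Surjective tk := by
  have hsμ : ℵ₀ ≤ Order.succ μ := hμ.trans (Order.le_succ μ)
  have hIcard : #((Order.succ μ).ord.ToType) = Order.succ μ := by simp
  have hIne : Nonempty (Order.succ μ).ord.ToType := by
    rw [← Cardinal.mk_ne_zero_iff, hIcard]
    exact (Cardinal.aleph0_pos.trans_le hsμ).ne'
  refine exists_surj ?_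
  rw [Cardinal.mk_prod, Cardinal.lift_id, Cardinal.lift_id, ← Cardinal.power_def, hIcard, hM]
  have h4 : #(Option (ℕ ⊕ (Order.succ μ).ord.ToType)) ≤ (2 : Cardinal.{u}) ^ μ := by
    rw [Cardinal.mk_option, Cardinal.mk_sum, hIcard, h]
    simp only [Cardinal.mk_nat, Cardinal.lift_aleph0, Cardinal.lift_uzero]
    refine Cardinal.add_le_of_le hsμ (Cardinal.add_le_of_le hsμ hsμ le_rfl) ?_
    exact (Cardinal.one_lt_aleph0.le).trans hsμ
  have h5 : #(Option (ℕ ⊕ (Order.succ μ).ord.ToType)) ^ μ ≤ Order.succ μ := by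
    calc #(Option (ℕ ⊕ (Order.succ μ).ord.ToType)) ^ μ
        ≤ ((2 : Cardinal.{u}) ^ μ) ^ μ := Cardinal.power_le_power_right h4
      _ = 2 ^ (μ * μ) := by rw [Cardinal.power_mul]
      _ = 2 ^ μ := by rw [Cardinal.mul_eq_self hμ]
      _ = Order.succ μ := h
  exact Cardinal.mul_le_of_le hsμ le_rfl h5

open Cardinal in
/-- The graph construction from `2 ^ μ = μ⁺`. -/
theorem graph_core {μ : Cardinal.{u}} (hμ : ℵ₀ ≤ μ) (h : (2 : Cardinal.{u}) ^ μ = Order.succ μ)
    {W : Type*} (e : W → (Order.succ μ).ord.ToType) (he : Function.Injective e)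
    (K : W → Finset (Order.succ μ).ord.ToType) :
    ∃ G : SimpleGraph W,
      (¬ ∃ f : ℕ → W, Function.Injective f ∧ ∀ n, G.Adj (f n) (f (n + 1))) ∧
      ∀ S : Set W, (∀ x ∈ S, ∀ y ∈ S, ¬ G.Adj x y) →
        ∃ j d : (Order.succ μ).ord.ToType, ∀ x ∈ S, j ∈ K x → e x < d := by
  classical
  have hsμ : ℵ₀ ≤ Order.succ μ := hμ.trans (Order.le_succ μ)
  have hIne : Nonempty (Order.succ μ).ord.ToType := by
    rw [← Cardinal.mk_ne_zero_iff, Cardinal.mk_ord_toType]
    exact (Cardinal.aleph0_pos.trans_le hsμ).ne'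
  obtain ⟨M, hM⟩ : ∃ M : Type u, #M = μ := ⟨μ.out, Cardinal.mk_out μ⟩
  obtain ⟨tk, htk⟩ := enum_tasks hμ h hM
  exact graph_core_aux (seg_surj hμ hM) (bdd_succ hμ hM) tk htk e he K

end

section

universe u
open Ordinal Cardinal

/-- An `(ω, ν)`-regular system on `L` with room for the factor `b`: finite sets `K x` such that
for every `τ < ν` the set of `x < L` with `τ ∉ K x` has order type at most `B τ`, and
`B τ * b ≤ L`. -/
structure IsReg (b L ν : Ordinal.{u}) (K : Ordinal.{u} → Finset Ordinal.{u})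
    (B : Ordinal.{u} → Ordinal.{u}) (φ : Ordinal.{u} → Ordinal.{u} → Ordinal.{u}) : Prop where
  pos : L ≠ 0
  mono : ∀ τ, τ < ν → ∀ x y, x < y → y < L → τ ∉ K x → τ ∉ K y → φ τ x < φ τ y
  bound : ∀ τ, τ < ν → ∀ x, x < L → τ ∉ K x → φ τ x < B τ
  mul : ∀ τ, τ < ν → B τ * b ≤ L

theorem exists_inj {j o : Ordinal.{u}} (h : j.card ≤ o.card) :
    ∃ f : Ordinal.{u} → Ordinal.{u}, Set.InjOn f (Set.Iio j) ∧ ∀ x, x < j → f x < o := by
  classical
  have h1 : #(Set.Iio j) ≤ #(Set.Iio o) := by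
    rw [Cardinal.mk_Iio_ordinal, Cardinal.mk_Iio_ordinal]
    exact Cardinal.lift_le.mpr h
  obtain ⟨e⟩ := (Cardinal.le_def _ _).mp h1
  refine ⟨fun x => if hx : x < j then (e ⟨x, hx⟩).1 else 0, ?_, ?_⟩
  · intro x hx y hy hxy
    have hx' : x < j := hx
    have hy' : y < j := hy
    simp only [dif_pos hx', dif_pos hy'] at hxy
    have := e.injective (Subtype.ext hxy)
    exact congrArg Subtype.val this
  · intro x hx
    simp only [dif_pos hx]
    exact (e ⟨x, hx⟩).2

theorem reg_zero (b : Ordinal.{u}) (hb : 1 < b) :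
    ∃ (K : Ordinal.{u} → Finset Ordinal.{u}) (B : Ordinal.{u} → Ordinal.{u})
      (φ : Ordinal.{u} → Ordinal.{u} → Ordinal.{u}), IsReg b (b ^ ω) ω K B φ := by
  classical
  have hb0 : b ≠ 0 := (zero_lt_one.trans hb).ne'
  have hn : ∀ x : Ordinal.{u}, ∃ n : ℕ, x < b ^ ω → x < b ^ (n : Ordinal.{u}) := by
    intro x
    by_cases hx : x < b ^ ω
    · obtain ⟨c, hc, hzc⟩ := (lt_opow_of_isSuccLimit hb0 isSuccLimit_omega0).mp hx
      obtain ⟨n, rfl⟩ := lt_omega0.mp hc
      exact ⟨n, fun _ => hzc⟩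
    · exact ⟨0, fun h => absurd h hx⟩
  choose n hn using hn
  refine ⟨fun x => (Finset.range (n x)).image (fun m : ℕ => (m : Ordinal.{u})), fun τ => b ^ τ,
    fun _ x => x, ?_, ?_, ?_, ?_⟩
  · exact opow_ne_zero _ hb0
  · intro τ _ x y hxy _ _ _
    exact hxy
  · intro τ hτ x hx hK
    obtain ⟨m, rfl⟩ := lt_omega0.mp hτ
    have h1 : n x ≤ m := by
      by_contra hcon
      push Not at hcon
      exact hK (Finset.mem_image.mpr ⟨m, Finset.mem_range.mpr hcon, rfl⟩)
    exact (hn x hx).trans_le (opow_le_opow_right (pos_iff_ne_zero.mpr hb0) (by exact_mod_cast h1))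
  · intro τ hτ
    rw [← opow_succ]
    exact opow_le_opow_right (pos_iff_ne_zero.mpr hb0) (isSuccLimit_omega0.succ_lt hτ).le

theorem reg_succ {b lam ν : Ordinal.{u}} (hb : 1 < b) (hlam : lam ≤ b) (hlim : Order.IsSuccLimit lam)
    (hcard : ∀ j, j < lam → j.card ≤ ν.card) {L : Ordinal.{u}} {K : Ordinal.{u} → Finset Ordinal.{u}}
    {B : Ordinal.{u} → Ordinal.{u}} {φ : Ordinal.{u} → Ordinal.{u} → Ordinal.{u}}
    (h : IsReg (b ^ lam) L ν K B φ) :
    ∃ (K' : Ordinal.{u} → Finset Ordinal.{u}) (B' : Ordinal.{u} → Ordinal.{u})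
      (φ' : Ordinal.{u} → Ordinal.{u} → Ordinal.{u}), IsReg b (L * b ^ lam) lam K' B' φ' := by
  classical
  have hb0 : b ≠ 0 := (zero_lt_one.trans hb).ne'
  have hb0' : 0 < b := zero_lt_one.trans hb
  have hL := h.pos
  have hlam0 : lam ≠ 0 := hlim.ne_bot
  have hk : ∀ j : Ordinal.{u}, ∃ f : Ordinal.{u} → Ordinal.{u}, j < lam →
      (Set.InjOn f (Set.Iio j) ∧ ∀ x, x < j → f x < ν) := by
    intro j
    by_cases hj : j < lam
    · obtain ⟨f, hf⟩ := exists_inj (hcard j hj)
      exact ⟨f, fun _ => hf⟩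
    · exact ⟨id, fun h => absurd h hj⟩
  choose k hk using hk
  let J : Ordinal.{u} → Ordinal.{u} := fun x => Ordinal.log b (x / L)
  have hy : ∀ x, x < L * b ^ lam → x / L < b ^ lam := fun x hx => (div_lt hL).mpr hx
  have hJ : ∀ x, x < L * b ^ lam → J x < lam := by
    intro x hx
    by_cases h0 : x / L = 0
    · simp only [J, h0, Ordinal.log_zero_right]
      exact pos_iff_ne_zero.mpr hlam0
    · exact (Ordinal.lt_opow_iff_log_lt hb h0).mp (hy x hx)
  have hyJ : ∀ x, x / L < b ^ (Order.succ (J x)) := fun x => Ordinal.lt_opow_succ_log_self hb _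
  have hfin : ∀ x, {τ : Ordinal.{u} | τ < J x ∧ J x < lam ∧ k (J x) τ ∈ K (x % L)}.Finite := by
    intro x
    by_cases hx : J x < lam
    · have h1 := (hk (J x) hx).1
      refine Set.Finite.of_finite_image (f := k (J x)) ?_ ?_
      · refine (Finset.finite_toSet (K (x % L))).subset ?_
        rintro _ ⟨τ, ⟨_, _, hτ⟩, rfl⟩
        exact hτ
      · intro a ha c hc hac
        exact h1 ha.1 hc.1 hac
    · refine (Set.finite_empty).subset ?_
      rintro τ ⟨_, h2, _⟩
      exact absurd h2 hx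
  refine ⟨fun x => (hfin x).toFinset, fun τ => L * b ^ (Order.succ τ) + L * lam,
    fun τ x => if J x ≤ τ then x else L * b ^ (Order.succ τ) +
      (L * J x + (B (k (J x) τ) * (x / L) + φ (k (J x) τ) (x % L))), ?_, ?_, ?_, ?_⟩
  · exact mul_ne_zero hL (opow_ne_zero _ hb0)
  · -- monotone
    intro τ hτ x y hxy hyL hKx hKy
    have hxL : x < L * b ^ lam := hxy.trans hyL
    have hJle : J x ≤ J y := Ordinal.log_mono_right b (div_le_left hxy.le L)
    have key : ∀ w, w < L * b ^ lam → τ ∉ (hfin w).toFinset → ¬ J w ≤ τ →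
        k (J w) τ < ν ∧ k (J w) τ ∉ K (w % L) := by
      intro w hw hKw hJw
      have h1 := (hk (J w) (hJ w hw)).2 τ (not_le.mp hJw)
      refine ⟨h1, fun h2 => hKw ?_⟩
      rw [Set.Finite.mem_toFinset]
      exact ⟨not_le.mp hJw, hJ w hw, h2⟩
    have hsmall : ∀ w, w < L * b ^ lam → τ ∉ (hfin w).toFinset → ¬ J w ≤ τ →
        B (k (J w) τ) * (w / L) + φ (k (J w) τ) (w % L) < L := by
      intro w hw hKw hJw
      obtain ⟨h1, h2⟩ := key w hw hKw hJw
      have h3 : φ (k (J w) τ) (w % L) < B (k (J w) τ) := h.bound _ h1 _ (mod_lt _ hL) h2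
      have h4 : B (k (J w) τ) * (w / L) + φ (k (J w) τ) (w % L) <
          B (k (J w) τ) * Order.succ (w / L) := by
        rw [mul_succ]; exact (add_lt_add_iff_left _).mpr h3
      refine h4.trans_le ((mul_le_mul_right (Order.succ_le_of_lt (hy w hw)) _).trans (h.mul _ h1))
    by_cases hy1 : J y ≤ τ
    · simp only [if_pos hy1, if_pos (hJle.trans hy1)]
      exact hxy
    · simp only [if_neg hy1]
      by_cases hx1 : J x ≤ τ
      · simp only [if_pos hx1]
        have h1 : x < L * b ^ (Order.succ τ) := by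
          rw [← div_lt hL]
          exact (hyJ x).trans_le (opow_le_opow_right hb0' (Order.succ_le_succ hx1))
        exact h1.trans_le (le_add_right le_rfl)
      · simp only [if_neg hx1]
        refine (add_lt_add_iff_left _).mpr ?_
        rcases hJle.lt_or_eq with hlt | heq
        · have h1 : L * J x + (B (k (J x) τ) * (x / L) + φ (k (J x) τ) (x % L)) <
              L * Order.succ (J x) := by
            rw [mul_succ]; exact (add_lt_add_iff_left _).mpr (hsmall x hxL hKx hx1)
          exact (h1.trans_le (mul_le_mul_right (Order.succ_le_of_lt hlt) _)).trans_le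
            (le_add_right le_rfl)
        · rw [heq]
          refine (add_lt_add_iff_left _).mpr ?_
          obtain ⟨h1, h2⟩ := key x hxL hKx hx1
          obtain ⟨h1', h2'⟩ := key y hyL hKy hy1
          rw [heq] at h1 h2
          rcases (div_le_left hxy.le L).lt_or_eq with hlt | heq2
          · have h3 : φ (k (J y) τ) (x % L) < B (k (J y) τ) := h.bound _ h1 _ (mod_lt _ hL) h2
            have h4 : B (k (J y) τ) * (x / L) + φ (k (J y) τ) (x % L) <
                B (k (J y) τ) * Order.succ (x / L) := by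
              rw [mul_succ]; exact (add_lt_add_iff_left _).mpr h3
            exact (h4.trans_le (mul_le_mul_right (Order.succ_le_of_lt hlt) _)).trans_le
              (le_add_right le_rfl)
          · rw [heq2]
            refine (add_lt_add_iff_left _).mpr ?_
            have hxx : L * (x / L) + x % L = x := div_add_mod _ _
            have hyy : L * (y / L) + y % L = y := div_add_mod _ _
            have h5 : x % L < y % L := by
              have h6 := hxy
              rw [← hxx, ← hyy, heq2] at h6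
              exact (add_lt_add_iff_left _).mp h6
            exact h.mono _ h1 _ _ h5 (mod_lt _ hL) h2 h2'
  · -- bound
    intro τ hτ x hx hKx
    have hxL : x < L * b ^ lam := hx
    by_cases hx1 : J x ≤ τ
    · simp only [if_pos hx1]
      have h1 : x < L * b ^ (Order.succ τ) := by
        rw [← div_lt hL]
        exact (hyJ x).trans_le (opow_le_opow_right hb0' (Order.succ_le_succ hx1))
      exact h1.trans_le (le_add_right le_rfl)
    · simp only [if_neg hx1]
      refine (add_lt_add_iff_left _).mpr ?_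
      have h1 := (hk (J x) (hJ x hx)).2 τ (not_le.mp hx1)
      have h2 : k (J x) τ ∉ K (x % L) := by
        intro h2
        refine hKx ?_
        rw [Set.Finite.mem_toFinset]
        exact ⟨not_le.mp hx1, hJ x hx, h2⟩
      have h3 : φ (k (J x) τ) (x % L) < B (k (J x) τ) := h.bound _ h1 _ (mod_lt _ hL) h2
      have h4 : B (k (J x) τ) * (x / L) + φ (k (J x) τ) (x % L) <
          B (k (J x) τ) * Order.succ (x / L) := by
        rw [mul_succ]; exact (add_lt_add_iff_left _).mpr h3
      have h5 : B (k (J x) τ) * (x / L) + φ (k (J x) τ) (x % L) < L :=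
        h4.trans_le ((mul_le_mul_right (Order.succ_le_of_lt (hy x hx)) _).trans (h.mul _ h1))
      have h6 : L * J x + (B (k (J x) τ) * (x / L) + φ (k (J x) τ) (x % L)) <
          L * Order.succ (J x) := by
        rw [mul_succ]; exact (add_lt_add_iff_left _).mpr h5
      exact h6.trans_le (mul_le_mul_right (Order.succ_le_of_lt (hJ x hx)) _)
  · -- room
    intro τ hτ
    have h1 : lam ≤ b ^ (Order.succ τ) := by
      refine hlam.trans ?_
      conv_lhs => rw [← opow_one b]
      exact opow_le_opow_right hb0' (by simpa using Order.succ_le_succ (Ordinal.zero_le τ))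
    have h2 : (2 : Ordinal.{u}) ≤ b := by
      rw [← one_add_one_eq_two]
      exact Order.add_one_le_of_lt hb
    have h3 : ∀ z : Ordinal.{u}, z + z = z * 2 := by
      intro z
      rw [← one_add_one_eq_two, mul_add, mul_one]
    calc (L * b ^ (Order.succ τ) + L * lam) * b
        ≤ (L * b ^ (Order.succ τ) + L * b ^ (Order.succ τ)) * b := by
          refine mul_le_mul_left ?_ _
          exact add_le_add le_rfl (mul_le_mul_right h1 _)
      _ = L * (b ^ (Order.succ τ) * (2 * b)) := by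
          rw [h3, mul_assoc, mul_assoc]
      _ ≤ L * (b ^ (Order.succ τ) * (b * b)) := by
          refine mul_le_mul_right (mul_le_mul_right (mul_le_mul_left h2 _) _) _
      _ = L * b ^ (Order.succ (Order.succ (Order.succ τ))) := by
          rw [opow_succ b (Order.succ (Order.succ τ)), opow_succ b (Order.succ τ), mul_assoc]
      _ ≤ L * b ^ lam := by
          refine mul_le_mul_right (opow_le_opow_right hb0' ?_) _
          exact (hlim.succ_lt (hlim.succ_lt (hlim.succ_lt hτ))).le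

end

section

universe u
open Ordinal Cardinal

theorem type_le_of_strictMono' {W : Type u} [LinearOrder W] [WellFoundedLT W] (S : Set W)
    (φ : W → Ordinal.{u}) (hmono : ∀ x ∈ S, ∀ y ∈ S, x < y → φ x < φ y) (θ : Ordinal.{u})
    (hb : ∀ x ∈ S, φ x < θ) : typeLT S ≤ θ := by
  rw [← type_toType θ, type_le_iff']
  refine ⟨RelEmbedding.ofMonotone (fun x : S => ToType.mk (⟨φ x.1, hb x.1 x.2⟩ : Set.Iio θ)) ?_⟩
  intro a b hab
  have h1 : φ a.1 < φ b.1 := hmono a.1 a.2 b.1 b.2 hab
  rw [OrderIso.lt_iff_lt]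
  exact h1

/-- Regular systems of every size `ℵ_n`. -/
theorem exists_reg (n : ℕ) : ∀ b : Ordinal.{u}, ω_ n ≤ b →
    ∃ (L : Ordinal.{u}) (K : Ordinal.{u} → Finset Ordinal.{u}) (B : Ordinal.{u} → Ordinal.{u})
      (φ : Ordinal.{u} → Ordinal.{u} → Ordinal.{u}),
      IsReg b L (ω_ n) K B φ ∧ L.card ≤ b.card := by
  induction n with
  | zero =>
    intro b hb
    simp only [Nat.cast_zero, omega_zero] at hb
    obtain ⟨K, B, φ, h⟩ := reg_zero b (one_lt_omega0.trans_le hb)
    refine ⟨b ^ ω, K, B, φ, ?_, ?_⟩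
    · simpa using h
    · refine (card_opow_le _ _).trans ?_
      have : ℵ₀ ≤ b.card := by simpa using Ordinal.card_le_card hb
      simp [this]
  | succ n ih =>
    intro b hb
    have hlim : Order.IsSuccLimit (ω_ (n + 1 : ℕ) : Ordinal.{u}) := isSuccLimit_omega _
    have hω : (ω : Ordinal.{u}) ≤ ω_ (n + 1 : ℕ) := omega0_le_omega _
    have hωb : ω ≤ b := hω.trans hb
    have hb1 : 1 < b := one_lt_omega0.trans_le hωb
    have hbc : ℵ₀ ≤ b.card := by simpa using Ordinal.card_le_card hωb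
    have h1 : ω_ n ≤ b ^ (ω_ (n + 1 : ℕ) : Ordinal.{u}) := by
      have h2 : (ω_ n : Ordinal.{u}) ≤ ω_ (n + 1 : ℕ) := by
        rw [omega_le_omega]; exact_mod_cast Nat.le_succ n
      refine (h2.trans hb).trans ?_
      conv_lhs => rw [← opow_one b]
      exact opow_le_opow_right (zero_lt_one.trans hb1) ((one_lt_omega0.le).trans hω)
    obtain ⟨L, K, B, φ, h, hL⟩ := ih _ h1
    have hcard : ∀ j : Ordinal.{u}, j < ω_ (n + 1 : ℕ) → j.card ≤ (ω_ n : Ordinal.{u}).card := by
      intro j hj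
      rw [← Cardinal.ord_aleph, Cardinal.lt_ord] at hj
      rw [Ordinal.card_omega]
      rw [Nat.cast_succ, ← Order.succ_eq_add_one, Cardinal.aleph_succ, Order.lt_succ_iff] at hj
      exact hj
    obtain ⟨K', B', φ', h'⟩ := reg_succ hb1 hb hlim hcard h
    refine ⟨_, K', B', φ', h', ?_⟩
    have h3 : (b ^ (ω_ (n + 1 : ℕ) : Ordinal.{u})).card ≤ b.card := by
      refine (card_opow_le _ _).trans ?_
      exact max_le hbc (max_le le_rfl (Ordinal.card_le_card hb))
    rw [card_mul]
    exact Cardinal.mul_le_of_le hbc (hL.trans h3) h3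

/-- the ordinal of an index -/
noncomputable def ofI {κ : Ordinal.{u}} (i : κ.ToType) : Ordinal.{u} :=
  (ToType.mk.symm i : Set.Iio _).1

theorem ofI_lt {κ : Ordinal.{u}} (i : κ.ToType) : ofI i < κ := (ToType.mk.symm i : Set.Iio _).2

theorem ofI_lt_ofI {κ : Ordinal.{u}} {i j : κ.ToType} : ofI i < ofI j ↔ i < j := by
  unfold ofI
  rw [Subtype.coe_lt_coe, OrderIso.lt_iff_lt]

theorem ofI_le_ofI {κ : Ordinal.{u}} {i j : κ.ToType} : ofI i ≤ ofI j ↔ i ≤ j := by
  unfold ofI
  rw [Subtype.coe_le_coe, OrderIso.le_iff_le]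

theorem ofI_inj {κ : Ordinal.{u}} {i j : κ.ToType} (h : ofI i = ofI j) : i = j :=
  le_antisymm (ofI_le_ofI.mp h.le) (ofI_le_ofI.mp h.ge)

theorem exists_ofI {κ a : Ordinal.{u}} (ha : a < κ) : ∃ i : κ.ToType, ofI i = a :=
  ⟨ToType.mk ⟨a, ha⟩, by simp [ofI]⟩

theorem main3 {μ : Cardinal.{u}} (hμ : ℵ₀ ≤ μ) (h2 : (2 : Cardinal.{u}) ^ μ = Order.succ μ)
    {b L ν : Ordinal.{u}} (hν : ν.card = μ) (hb : (Order.succ μ).ord ≤ b)
    (hbc : b.card ≤ Order.succ μ) (hLc : L.card ≤ Order.succ μ)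
    {K : Ordinal.{u} → Finset Ordinal.{u}} {B : Ordinal.{u} → Ordinal.{u}}
    {φ : Ordinal.{u} → Ordinal.{u} → Ordinal.{u}} (h : IsReg b L ν K B φ) :
    ∃ G : SimpleGraph (L * b * (Order.succ μ).ord).ToType,
      (¬ ∃ f : ℕ → (L * b * (Order.succ μ).ord).ToType,
        Function.Injective f ∧ ∀ n, G.Adj (f n) (f (n + 1))) ∧
      ∀ S : Set (L * b * (Order.succ μ).ord).ToType,
        (∀ x ∈ S, ∀ y ∈ S, ¬ G.Adj x y) → typeLT S < L * b * (Order.succ μ).ord := by
  classical
  have hsμ : ℵ₀ ≤ Order.succ μ := hμ.trans (Order.le_succ μ)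
  set κ : Ordinal.{u} := (Order.succ μ).ord with hκ
  have hκlim : Order.IsSuccLimit κ := Cardinal.isSuccLimit_ord hsμ
  have hκ0 : κ ≠ 0 := hκlim.ne_bot
  have hL := h.pos
  have hb0 : b ≠ 0 := ((pos_iff_ne_zero.mpr hκ0).trans_le hb).ne'
  set P : Ordinal.{u} := L * b with hP
  have hP0 : P ≠ 0 := mul_ne_zero hL hb0
  let W := (P * κ).ToType
  let o : W → Ordinal.{u} := fun x => (ToType.mk.symm x : Set.Iio _).1
  have ho : ∀ x : W, o x < P * κ := fun x => (ToType.mk.symm x : Set.Iio _).2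
  have hoo : ∀ {x y : W}, o x < o y ↔ x < y := by
    intro x y
    simp only [o]
    rw [Subtype.coe_lt_coe, OrderIso.lt_iff_lt]
  have hζ : ∀ x : W, o x / P < κ := fun x => (div_lt hP0).mpr (ho x)
  have hy : ∀ x : W, o x % P < P := fun x => mod_lt _ hP0
  have hη : ∀ x : W, (o x % P) / L < b := fun x => (div_lt hL).mpr (hy x)
  have hz : ∀ x : W, (o x % P) % L < L := fun x => mod_lt _ hL
  choose Z hZ using fun x : W => exists_ofI (hζ x)
  -- injections of the initial segments
  have hk : ∀ j : Ordinal.{u}, ∃ f : Ordinal.{u} → Ordinal.{u}, j < κ →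
      (Set.InjOn f (Set.Iio j) ∧ ∀ x, x < j → f x < ν) := by
    intro j
    by_cases hj : j < κ
    · have hj' : j.card ≤ ν.card := by
        rw [hν, ← Order.lt_succ_iff, ← Cardinal.lt_ord]
        exact hj
      obtain ⟨f, hf⟩ := exists_inj hj'
      exact ⟨f, fun _ => hf⟩
    · exact ⟨id, fun h => absurd h hj⟩
  choose k hk using hk
  have hfin : ∀ x : W, {j : κ.ToType | j < Z x ∧ k (ofI (Z x)) (ofI j) ∈ K ((o x % P) % L)}.Finite := by
    intro x
    have h1 := (hk (ofI (Z x)) (ofI_lt _)).1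
    refine Set.Finite.of_finite_image (f := fun j => k (ofI (Z x)) (ofI j)) ?_ ?_
    · refine (Finset.finite_toSet (K ((o x % P) % L))).subset ?_
      rintro _ ⟨j, ⟨_, hj⟩, rfl⟩
      exact hj
    · intro a ha c hc hac
      exact ofI_inj (h1 (ofI_lt_ofI.mpr ha.1) (ofI_lt_ofI.mpr hc.1) hac)
  let K' : W → Finset κ.ToType := fun x => (hfin x).toFinset
  -- an injection of the vertices into the index set
  have hcard : #W ≤ #κ.ToType := by
    rw [Cardinal.mk_ord_toType, Cardinal.mk_toType, card_mul, card_mul]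
    refine Cardinal.mul_le_of_le hsμ (Cardinal.mul_le_of_le hsμ hLc hbc) ?_
    rw [hκ, Cardinal.card_ord]
  obtain ⟨e, he⟩ : ∃ e : W → κ.ToType, Function.Injective e := by
    obtain ⟨i⟩ := (Cardinal.le_def _ _).mp hcard
    exact ⟨i, i.injective⟩
  obtain ⟨G, hG1, hG2⟩ := graph_core (μ := μ) hμ h2 e he K'
  refine ⟨G, hG1, fun S hS => ?_⟩
  obtain ⟨j, d, hjd⟩ := hG2 S hS
  -- a bound beyond which the exceptional vertices do not occur
  obtain ⟨M, hM⟩ : ∃ M : Type u, #M = μ := ⟨μ.out, Cardinal.mk_out μ⟩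
  have hMne : Nonempty M := by
    rw [← Cardinal.mk_ne_zero_iff, hM]; exact (Cardinal.aleph0_pos.trans_le hμ).ne'
  obtain ⟨ζ0, hζ0⟩ : ∃ ζ0 : κ.ToType, ∀ x : W, e x < d → Z x < ζ0 := by
    have h3 : #{x : W // e x < d} ≤ #M := by
      have h4 : #{x : W // e x < d} ≤ #(Set.Iio d) := by
        refine Cardinal.mk_le_of_injective (f := fun x => (⟨e x.1, x.2⟩ : Set.Iio d)) ?_
        intro a b hab
        exact Subtype.ext (he (congrArg Subtype.val hab))
      have h5 : #(Set.Iio d) ≤ μ := by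
        have := Cardinal.mk_Iio_lt d (by simp [hκ])
        rw [Cardinal.mk_toType, Cardinal.card_ord] at this
        exact Order.lt_succ_iff.mp this
      rw [hM]; exact h4.trans h5
    rcases isEmpty_or_nonempty {x : W // e x < d} with hE | hE
    · exact ⟨d, fun x hx => (hE.false ⟨x, hx⟩).elim⟩
    · obtain ⟨q, hq⟩ := exists_surj h3
      obtain ⟨ζ0, hζ0⟩ := bdd_succ hμ hM (fun m => Z (q m).1)
      refine ⟨ζ0, fun x hx => ?_⟩
      obtain ⟨m, hm⟩ := hq ⟨x, hx⟩
      have := hζ0 m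
      rwa [hm] at this
  obtain ⟨d', hjd', hζd'⟩ : ∃ d' : κ.ToType, j < d' ∧ ζ0 < d' := by
    obtain ⟨m0⟩ := hMne
    obtain ⟨e1, he1⟩ := bdd_succ hμ hM (fun _ => max j ζ0)
    exact ⟨e1, (le_max_left _ _).trans_lt (he1 m0), (le_max_right _ _).trans_lt (he1 m0)⟩
  -- beyond d', vertices of S are in the small sets
  let σ : W → Ordinal.{u} := fun x => k (ofI (Z x)) (ofI j)
  have hσν : ∀ x : W, d' ≤ Z x → σ x < ν := by
    intro x hx
    exact (hk (ofI (Z x)) (ofI_lt _)).2 _ (ofI_lt_ofI.mpr (hjd'.trans_le hx))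
  have hσK : ∀ x ∈ S, d' ≤ Z x → σ x ∉ K ((o x % P) % L) := by
    intro x hxS hx hcon
    have h3 : j ∈ K' x := by
      simp only [K', Set.Finite.mem_toFinset]
      exact ⟨hjd'.trans_le hx, hcon⟩
    have h4 := hζ0 x (hjd x hxS h3)
    exact absurd (h4.trans hζd') (not_lt.mpr hx)
  -- the order-preserving map
  let δ : Ordinal.{u} := ofI d'
  let ψ : W → Ordinal.{u} := fun x =>
    L * ofI (Z x) + (B (σ x) * ((o x % P) / L) + φ (σ x) ((o x % P) % L))
  let Φ : W → Ordinal.{u} := fun x => if Z x < d' then o x else P * δ + ψ x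
  have hin : ∀ x ∈ S, d' ≤ Z x →
      B (σ x) * ((o x % P) / L) + φ (σ x) ((o x % P) % L) < L := by
    intro x hxS hx
    have h1 : B (σ x) * ((o x % P) / L) + φ (σ x) ((o x % P) % L) <
        B (σ x) * Order.succ ((o x % P) / L) := by
      rw [mul_succ]
      exact (add_lt_add_iff_left _).mpr (h.bound _ (hσν x hx) _ (hz x) (hσK x hxS hx))
    exact h1.trans_le ((mul_le_mul_right (Order.succ_le_of_lt (hη x)) _).trans
      (h.mul _ (hσν x hx)))
  have hψ : ∀ x ∈ S, d' ≤ Z x → ψ x < P := by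
    intro x hxS hx
    have h1 : ψ x < L * Order.succ (ofI (Z x)) := by
      rw [mul_succ]
      exact (add_lt_add_iff_left _).mpr (hin x hxS hx)
    refine h1.trans_le ?_
    rw [hP]
    exact mul_le_mul_right ((Order.succ_le_of_lt (ofI_lt _)).trans hb) _
  have hZle : ∀ {x y : W}, x < y → Z x ≤ Z y := by
    intro x y hxy
    rw [← ofI_le_ofI, hZ, hZ]
    exact div_le_left (hoo.mpr hxy).le _
  have hmono : ∀ x ∈ S, ∀ y ∈ S, x < y → Φ x < Φ y := by
    intro x hxS y hyS hxy
    simp only [Φ]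
    have hle := hZle hxy
    by_cases hy' : Z y < d'
    · rw [if_pos (hle.trans_lt hy'), if_pos hy']
      exact hoo.mpr hxy
    · push Not at hy'
      rw [if_neg (not_lt.mpr hy')]
      by_cases hx' : Z x < d'
      · rw [if_pos hx']
        have h1 : o x < P * Order.succ (o x / P) := lt_mul_succ_div _ hP0
        have h2 : P * Order.succ (o x / P) ≤ P * δ := by
          refine mul_le_mul_right (Order.succ_le_of_lt ?_) _
          rw [← hZ]
          exact ofI_lt_ofI.mpr hx'
        exact (h1.trans_le h2).trans_le (le_add_right le_rfl)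
      · push Not at hx'
        rw [if_neg (not_lt.mpr hx')]
        refine (add_lt_add_iff_left _).mpr ?_
        rcases hle.lt_or_eq with hlt | heq
        · have h1 : ψ x < L * Order.succ (ofI (Z x)) := by
            rw [mul_succ]
            exact (add_lt_add_iff_left _).mpr (hin x hxS hx')
          have h2 : L * Order.succ (ofI (Z x)) ≤ L * ofI (Z y) :=
            mul_le_mul_right (Order.succ_le_of_lt (ofI_lt_ofI.mpr hlt)) _
          exact (h1.trans_le h2).trans_le (le_add_right le_rfl)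
        · have hσeq : σ x = σ y := by simp only [σ, heq]
          simp only [ψ]
          rw [heq, hσeq]
          refine (add_lt_add_iff_left _).mpr ?_
          -- compare inside one block
          have hox : P * (o x / P) + o x % P = o x := div_add_mod _ _
          have hoy : P * (o y / P) + o y % P = o y := div_add_mod _ _
          have hζeq : o x / P = o y / P := by rw [← hZ x, ← hZ y, heq]
          have hxy' : o x % P < o y % P := by
            have h1 : o x < o y := hoo.mpr hxy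
            rw [← hox, ← hoy, hζeq] at h1
            exact (add_lt_add_iff_left _).mp h1
          have hbx := h.bound _ (hσν x hx') _ (hz x) (hσK x hxS hx')
          rw [hσeq] at hbx
          rcases (div_le_left hxy'.le L).lt_or_eq with hlt | heq2
          · have h1 : B (σ y) * ((o x % P) / L) + φ (σ y) ((o x % P) % L) <
                B (σ y) * Order.succ ((o x % P) / L) := by
              rw [mul_succ]
              exact (add_lt_add_iff_left _).mpr hbx
            have h2 : B (σ y) * Order.succ ((o x % P) / L) ≤ B (σ y) * ((o y % P) / L) :=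
              mul_le_mul_right (Order.succ_le_of_lt hlt) _
            exact (h1.trans_le h2).trans_le (le_add_right le_rfl)
          · rw [heq2]
            refine (add_lt_add_iff_left _).mpr ?_
            have hx2 : L * ((o x % P) / L) + (o x % P) % L = o x % P := div_add_mod _ _
            have hy2 : L * ((o y % P) / L) + (o y % P) % L = o y % P := div_add_mod _ _
            have h5 : (o x % P) % L < (o y % P) % L := by
              rw [← hx2, ← hy2, heq2] at hxy'
              exact (add_lt_add_iff_left _).mp hxy'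
            refine h.mono _ (hσν y hy') _ _ h5 (hz y) ?_ (hσK y hyS hy')
            rw [← hσeq]
            exact hσK x hxS hx'
  have hbound : ∀ x ∈ S, Φ x < P * Order.succ δ := by
    intro x hxS
    simp only [Φ]
    rw [mul_succ]
    by_cases hx' : Z x < d'
    · rw [if_pos hx']
      have h1 : o x < P * Order.succ (o x / P) := lt_mul_succ_div _ hP0
      have h2 : P * Order.succ (o x / P) ≤ P * δ := by
        refine mul_le_mul_right (Order.succ_le_of_lt ?_) _
        rw [← hZ]
        exact ofI_lt_ofI.mpr hx'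
      exact (h1.trans_le h2).trans_le (le_add_right le_rfl)
    · rw [if_neg hx']
      exact (add_lt_add_iff_left _).mpr (hψ x hxS (not_lt.mp hx'))
  refine (type_le_of_strictMono' S Φ hmono _ hbound).trans_lt ?_
  refine mul_lt_mul_of_pos_left ?_ (pos_iff_ne_zero.mpr hP0)
  exact hκlim.succ_lt (ofI_lt _)

/-- Main theorem: if `2 ^ ℵ_n = ℵ_(n+1)`, then arbitrarily large limit ordinals below `ω_(n+2)`
carry a graph with no infinite path all of whose independent sets have smaller order type. -/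
theorem main_all (n : ℕ) (h2 : (2 : Cardinal.{u}) ^ (ℵ_ n) = ℵ_ (n + 1 : ℕ)) (β : Ordinal.{u})
    (hβ : β < ω_ (n + 2 : ℕ)) :
    ∃ α : Ordinal.{u}, β ≤ α ∧ α < ω_ (n + 2 : ℕ) ∧ Order.IsSuccLimit α ∧
      ∃ G : SimpleGraph α.ToType,
        (¬ ∃ f : ℕ → α.ToType, Function.Injective f ∧ ∀ n, G.Adj (f n) (f (n + 1))) ∧
        ∀ S : Set α.ToType, (∀ x ∈ S, ∀ y ∈ S, ¬ G.Adj x y) → typeLT S < α := by
  have hs : (Order.succ (ℵ_ n) : Cardinal.{u}) = ℵ_ (n + 1 : ℕ) := by
    rw [Cardinal.succ_aleph, Nat.cast_succ]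
  have hs2 : (Order.succ (ℵ_ (n + 1 : ℕ)) : Cardinal.{u}) = ℵ_ (n + 2 : ℕ) := by
    rw [Cardinal.succ_aleph, ← Nat.cast_succ]
  have hμ : ℵ₀ ≤ (ℵ_ n : Cardinal.{u}) := Cardinal.aleph0_le_aleph _
  have hκ : (Order.succ (ℵ_ n) : Cardinal.{u}).ord = ω_ (n + 1 : ℕ) := by
    rw [hs, Cardinal.ord_aleph]
  set b : Ordinal.{u} := max β (ω_ (n + 1 : ℕ)) with hb
  have hbc : b.card ≤ ℵ_ (n + 1 : ℕ) := by
    have h3 : b < ω_ (n + 2 : ℕ) := by
      refine max_lt hβ ?_
      rw [omega_lt_omega]; exact_mod_cast Nat.lt_succ_self (n + 1)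
    rw [← Cardinal.ord_aleph, Cardinal.lt_ord, ← hs2, Order.lt_succ_iff] at h3
    exact h3
  have hωn : (ω_ n : Ordinal.{u}) ≤ ω_ (n + 1 : ℕ) := by
    rw [omega_le_omega]; exact_mod_cast Nat.le_succ n
  obtain ⟨L, K, B, φ, hreg, hL⟩ := exists_reg n b (hωn.trans (le_max_right _ _))
  have hbκ : (Order.succ (ℵ_ n) : Cardinal.{u}).ord ≤ b := by rw [hκ]; exact le_max_right _ _
  obtain ⟨G, hG1, hG2⟩ := main3 (μ := ℵ_ n) hμ (by rw [h2, hs]) (ν := ω_ n)
    (Ordinal.card_omega _) hbκ (hs ▸ hbc) ((hL.trans hbc).trans_eq hs.symm) hreg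
  have hκlim : Order.IsSuccLimit (Order.succ (ℵ_ n) : Cardinal.{u}).ord :=
    Cardinal.isSuccLimit_ord (hμ.trans (Order.le_succ _))
  have hb0 : b ≠ 0 := ((pos_iff_ne_zero.mpr hκlim.ne_bot).trans_le hbκ).ne'
  have hP0 : L * b ≠ 0 := mul_ne_zero hreg.pos hb0
  refine ⟨L * b * (Order.succ (ℵ_ n)).ord, ?_, ?_, ?_, G, hG1, hG2⟩
  · refine (le_max_left β (ω_ (n + 1 : ℕ))).trans ?_
    calc b = 1 * b * 1 := by simp
      _ ≤ L * b * (Order.succ (ℵ_ n)).ord := by
        refine mul_le_mul' (mul_le_mul' ?_ le_rfl) ?_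
        · exact Order.one_le_iff_pos.mpr (pos_iff_ne_zero.mpr hreg.pos)
        · exact Order.one_le_iff_pos.mpr (pos_iff_ne_zero.mpr hκlim.ne_bot)
  · rw [← Cardinal.ord_aleph, Cardinal.lt_ord, ← hs2, Order.lt_succ_iff, card_mul, card_mul]
    have hinf : ℵ₀ ≤ (ℵ_ (n + 1 : ℕ) : Cardinal.{u}) := Cardinal.aleph0_le_aleph _
    refine Cardinal.mul_le_of_le hinf (Cardinal.mul_le_of_le hinf (hL.trans hbc) hbc) ?_
    rw [Cardinal.card_ord, hs]
  · exact isSuccLimit_mul_right (pos_iff_ne_zero.mpr hP0) hκlim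

end

/-- If `2 ^ ℵ_n = ℵ_(n+1)` for some natural number `n`, then for every `β < ω_(n+2)` there is a
limit ordinal `α` with `β ≤ α < ω_(n+2)` and a graph on `α` with no infinite path and no
independent set of order type `α`. -/
theorem aux_result (n : ℕ) (hn : (2 : Cardinal.{0}) ^ Cardinal.aleph n = Cardinal.aleph (n + 1 : ℕ))
    (β : Ordinal.{0}) (hβ : β < Ordinal.omega (n + 2 : ℕ)) :
    ∃ α : Ordinal.{0}, β ≤ α ∧ α < Ordinal.omega (n + 2 : ℕ) ∧ Order.IsSuccLimit α ∧
      ∃ G : SimpleGraph α.ToType,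
        (¬ ∃ v : ℕ → α.ToType, Function.Injective v ∧ ∀ k : ℕ, G.Adj (v k) (v (k + 1))) ∧
        ¬ ∃ S : Set α.ToType, G.IsIndepSet S ∧ Ordinal.type (fun x y : S => x < y) = α := by
  obtain ⟨α, h1, h2, h3, G, h4, h5⟩ := main_all n hn β hβ
  refine ⟨α, h1, h2, h3, G, h4, ?_⟩
  rintro ⟨S, hS, hS'⟩
  refine absurd (h5 S ?_) (not_lt.mpr hS'.ge)
  intro x hx y hy hxy
  exact hS hx hy (G.ne_of_adj hxy) hxy

open Pool.Agent.Helper397.ForceCH

/-- (1) Some notion of forcing has all its conditions forcing that the ground model `ω₁` is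
preserved and that the continuum hypothesis holds. (2) If `2 ^ ℵ_n = ℵ_(n+1)` for some natural
number `n` (for `n = 0` this is the continuum hypothesis), then for every `β < ω_(n+2)` there is a
limit ordinal `α` with `β ≤ α < ω_(n+2)` and a graph on `α` with no infinite path and no
independent set of order type `α`. -/
theorem result :
    (∃ (P : Type) (_ : Preorder P), Nonempty P ∧
      ∀ p : P, p ∈ OmegaOnePreserved P ∧ p ∈ CHHolds P) ∧
    (∀ n : ℕ, (2 : Cardinal.{0}) ^ Cardinal.aleph n = Cardinal.aleph (n + 1 : ℕ) →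
      ∀ β : Ordinal.{0}, β < Ordinal.omega (n + 2 : ℕ) →
        ∃ α : Ordinal.{0}, β ≤ α ∧ α < Ordinal.omega (n + 2 : ℕ) ∧ Order.IsSuccLimit α ∧
          ∃ G : SimpleGraph α.ToType,
            (¬ ∃ v : ℕ → α.ToType, Function.Injective v ∧ ∀ k : ℕ, G.Adj (v k) (v (k + 1))) ∧
            ¬ ∃ S : Set α.ToType, G.IsIndepSet S ∧ Ordinal.type (fun x y : S => x < y) = α) :=
  ⟨by
    obtain ⟨P, hP, hne, h⟩ := exists_forcing
    exact ⟨P, hP, hne, fun p => ⟨(h p).1, (h p).2.2⟩⟩, aux_result⟩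

end Pool.Agent.Results.MP_95a8e7_lc.NotATheorem
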